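import Mathlib
set_option autoImplicit false
open Finset
namespace Pool.Agent.helper7.JT

/-- the joint parity: `p(n - h₀) + ∑ p(n - h₀ + dsh h)` modulo 2 (the same as `PJ`) -/
def FIN_PJ (h₀ : ℕ) {nh : ℕ} (dsh : Fin nh → ℕ) (n : ℕ) : ZMod 2 :=
  (if h₀ ≤ n then (Fintype.card (Nat.Partition (n - h₀)) : ZMod 2) else 0) +
    ∑ h, if h₀ ≤ n + dsh h then (Fintype.card (Nat.Partition (n + dsh h - h₀)) : ZMod 2) else 0

/-- the statement of `joint_class` -/
def FIN_JC : Prop := ∀ (nh h₀ : ℕ) (dsh : Fin nh → ℕ), (∀ h, 1 ≤ dsh h ∧ dsh h ≤ h₀) →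
    Function.Injective dsh → ∀ i c : ℕ,
    ∃ κ : ℝ, 0 < κ ∧ ∃ X₀ : ℕ, ∀ X : ℕ, X₀ ≤ X →
      κ * √X * Real.log X / (Real.log (Real.log X)) ^ 3 ≤
        (((range (X + 1)).filter fun n => n % 2 ^ i = c % 2 ^ i ∧ FIN_PJ h₀ dsh n = 1).card : ℝ)

/-- the coefficients of a polynomial times the partition series, modulo 2 -/
lemma FIN_coeff (A : Polynomial (ZMod 2)) (p : ℕ → ZMod 2) (n : ℕ) :
    PowerSeries.coeff n ((A : PowerSeries (ZMod 2)) * PowerSeries.mk p)
      = ∑ e ∈ A.support, if e ≤ n then p (n - e) else 0 := by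
  have h1 : (A : PowerSeries (ZMod 2)) = ∑ e ∈ A.support, (PowerSeries.X : PowerSeries (ZMod 2)) ^ e := by
    ext m
    rw [Polynomial.coeff_coe, map_sum]
    simp only [PowerSeries.coeff_X_pow]
    rw [Finset.sum_ite_eq]
    simp only [Polynomial.mem_support_iff]
    have h2 : ∀ x : ZMod 2, x = if x ≠ 0 then 1 else 0 := by decide
    exact h2 _
  rw [h1, Finset.sum_mul, map_sum]
  refine Finset.sum_congr rfl fun e _ => ?_
  rw [PowerSeries.coeff_X_pow_mul']
  simp

/-- the case `r = 0` -/
theorem FIN_poly (hJC : FIN_JC) (A : Polynomial (ZMod 2)) (hA : A ≠ 0) (i c : ℕ) :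
    ∃ κ : ℝ, 0 < κ ∧ ∃ X₀ : ℕ, ∀ X : ℕ, X₀ ≤ X →
      κ * √X * Real.log X / (Real.log (Real.log X)) ^ 3 ≤
        (((range (X + 1)).filter fun n => n % 2 ^ i = c % 2 ^ i ∧
          PowerSeries.coeff n ((A : PowerSeries (ZMod 2)) *
            PowerSeries.mk fun k => (Fintype.card (Nat.Partition k) : ZMod 2)) = 1).card : ℝ) := by
  classical
  set E : Finset ℕ := A.support.erase A.natDegree with hE
  have hElt : ∀ e ∈ E, e < A.natDegree := by
    intro e he
    rw [hE, Finset.mem_erase] at he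
    exact lt_of_le_of_ne (Polynomial.le_natDegree_of_mem_supp e he.2) he.1
  obtain ⟨κ, hκ, X₀, h⟩ := hJC E.card A.natDegree
    (fun h => A.natDegree - E.orderEmbOfFin rfl h)
    (fun h => by
      have := hElt _ (E.orderEmbOfFin_mem rfl h)
      omega)
    (fun a b hab => by
      have h1 := hElt _ (E.orderEmbOfFin_mem rfl a)
      have h2 := hElt _ (E.orderEmbOfFin_mem rfl b)
      have h3 : A.natDegree - E.orderEmbOfFin rfl a = A.natDegree - E.orderEmbOfFin rfl b := hab
      exact (E.orderEmbOfFin rfl).injective (by omega)) i c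
  refine ⟨κ, hκ, X₀, fun X hX => (h X hX).trans (le_of_eq ?_)⟩
  congr 2
  ext n
  have key : FIN_PJ A.natDegree (fun h => A.natDegree - E.orderEmbOfFin rfl h) n
      = PowerSeries.coeff n ((A : PowerSeries (ZMod 2)) *
            PowerSeries.mk fun k => (Fintype.card (Nat.Partition k) : ZMod 2)) := by
    rw [FIN_coeff]
    have hmem : A.natDegree ∈ A.support := Polynomial.natDegree_mem_support_of_nonzero hA
    rw [← Finset.add_sum_erase _ _ hmem, ← hE]
    unfold FIN_PJ
    congr 1
    have h4 : ∑ e ∈ E, (if e ≤ n then (Fintype.card (Nat.Partition (n - e)) : ZMod 2) else 0)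
        = ∑ h : Fin E.card, (if (E.orderEmbOfFin rfl h) ≤ n then
            (Fintype.card (Nat.Partition (n - E.orderEmbOfFin rfl h)) : ZMod 2) else 0) := by
      conv_lhs => rw [← Finset.image_orderEmbOfFin_univ E rfl]
      rw [Finset.sum_image]
      intro a _ b _ hab
      exact (E.orderEmbOfFin rfl).injective hab
    rw [h4]
    refine Finset.sum_congr rfl fun h _ => ?_
    have h5 := hElt _ (E.orderEmbOfFin_mem rfl h)
    beta_reduce
    generalize E.orderEmbOfFin rfl h = e at h5 ⊢
    by_cases h6 : e ≤ n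
    · rw [if_pos h6, if_pos (by omega)]
      have h7 : n + (A.natDegree - e) - A.natDegree = n - e := by omega
      rw [h7]
    · rw [if_neg h6, if_neg (by omega)]
  simp only [Finset.mem_filter, key]

/-- the growth function tends to infinity -/
lemma FIN_grow (C : ℝ) : ∃ X₀ : ℕ, ∀ X : ℕ, X₀ ≤ X →
    C ≤ √X * Real.log X / (Real.log (Real.log X)) ^ 3 := by
  have h1 : ∀ᶠ y : ℝ in Filter.atTop, (Real.log y) ^ 3 ≤ y := by
    have h := (isLittleO_log_rpow_atTop (r := (1 / 3 : ℝ)) (by norm_num)).bound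
      (c := 1) one_pos
    filter_upwards [h, Filter.eventually_ge_atTop (1 : ℝ)] with y hy hy1
    have h2 : 0 ≤ Real.log y := Real.log_nonneg hy1
    rw [one_mul, Real.norm_of_nonneg h2, Real.norm_of_nonneg (by positivity)] at hy
    calc (Real.log y) ^ 3 ≤ (y ^ (1 / 3 : ℝ)) ^ 3 := by gcongr
      _ = y := by
        rw [← Real.rpow_natCast, ← Real.rpow_mul (by positivity)]
        norm_num
  have hcast : Filter.Tendsto (fun X : ℕ => (X : ℝ)) Filter.atTop Filter.atTop :=
    tendsto_natCast_atTop_atTop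
  have hlog := Real.tendsto_log_atTop.comp hcast
  have hloglog := Real.tendsto_log_atTop.comp hlog
  have hsq := Real.tendsto_sqrt_atTop.comp hcast
  have := ((hlog.eventually h1).and (hloglog.eventually (Filter.eventually_ge_atTop (1 : ℝ)))).and
    (hsq.eventually (Filter.eventually_ge_atTop C))
  obtain ⟨X₀, hX₀⟩ := Filter.eventually_atTop.1 this
  refine ⟨X₀, fun X hX => ?_⟩
  obtain ⟨⟨a, b⟩, d⟩ := hX₀ X hX
  simp only [Function.comp_apply] at a b d
  have h3 : 0 < (Real.log (Real.log X)) ^ 3 := by positivity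
  have h4 : 1 ≤ Real.log X / (Real.log (Real.log X)) ^ 3 := by rw [one_le_div h3]; exact a
  calc C ≤ √X * 1 := by rw [mul_one]; exact d
    _ ≤ √X * (Real.log X / (Real.log (Real.log X)) ^ 3) := by gcongr
    _ = _ := by ring

/-- FIN: general polynomials, eventually periodic sequences and classes modulo powers of two -/
theorem joint_final_of (hJC : FIN_JC) (A : Polynomial (ZMod 2)) (hA : A ≠ 0) (r : ℕ → ZMod 2)
    (hr : ∃ t n₀ : ℕ, 1 ≤ t ∧ ∀ n, n₀ ≤ n → r (n + t) = r n) (i c : ℕ) :
    ∃ κ : ℝ, 0 < κ ∧ ∃ X₀ : ℕ, ∀ X : ℕ, X₀ ≤ X →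
      κ * √X * Real.log X / (Real.log (Real.log X)) ^ 3 ≤
        (((range (X + 1)).filter fun n => n % 2 ^ i = c % 2 ^ i ∧
          PowerSeries.coeff n ((A : PowerSeries (ZMod 2)) *
            PowerSeries.mk fun k => (Fintype.card (Nat.Partition k) : ZMod 2)) ≠ r n).card : ℝ) := by
  classical
  obtain ⟨t, n₀, ht, hr⟩ := hr
  set s : ℕ := 2 ^ i * t with hs
  have hs1 : 1 ≤ s := Nat.mul_pos (by positivity) ht
  have hrs : ∀ n, n₀ ≤ n → r (n + s) = r n := by
    intro n hn
    have : ∀ m : ℕ, r (n + m * t) = r n := by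
      intro m
      induction m with
      | zero => simp
      | succ m ih =>
        rw [← ih, Nat.succ_mul, ← add_assoc]
        exact hr _ (by omega)
    rw [hs]; exact this _
  set a : ℕ → ZMod 2 := fun n => PowerSeries.coeff n ((A : PowerSeries (ZMod 2)) *
            PowerSeries.mk fun k => (Fintype.card (Nat.Partition k) : ZMod 2)) with ha
  have hQ : (1 + Polynomial.X ^ s : Polynomial (ZMod 2)) ≠ 0 := by
    intro h0
    have := congrArg (fun p => Polynomial.coeff p 0) h0
    simp only [Polynomial.coeff_add, Polynomial.coeff_one_zero, Polynomial.coeff_zero] at this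
    rw [Polynomial.coeff_X_pow, if_neg (by omega)] at this
    simp at this
  obtain ⟨κ, hκ, X₁, h1⟩ := FIN_poly hJC (A * (1 + Polynomial.X ^ s)) (mul_ne_zero hA hQ) i c
  have hcoef : ∀ n, PowerSeries.coeff n (((A * (1 + Polynomial.X ^ s) : Polynomial (ZMod 2)) :
      PowerSeries (ZMod 2)) * PowerSeries.mk fun k => (Fintype.card (Nat.Partition k) : ZMod 2))
      = a n + if s ≤ n then a (n - s) else 0 := by
    intro n
    have : (((A * (1 + Polynomial.X ^ s) : Polynomial (ZMod 2)) :
      PowerSeries (ZMod 2)) * PowerSeries.mk fun k => (Fintype.card (Nat.Partition k) : ZMod 2))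
      = (A : PowerSeries (ZMod 2)) *
            (PowerSeries.mk fun k => (Fintype.card (Nat.Partition k) : ZMod 2)) +
        PowerSeries.X ^ s * ((A : PowerSeries (ZMod 2)) *
            PowerSeries.mk fun k => (Fintype.card (Nat.Partition k) : ZMod 2)) := by
      push_cast; ring
    rw [this, map_add, PowerSeries.coeff_X_pow_mul']
  set W : ℕ → Finset ℕ := fun X => (range (X + 1)).filter fun n => n % 2 ^ i = c % 2 ^ i ∧ a n ≠ r n
    with hW
  have hbound : ∀ X, ((range (X + 1)).filter fun n => n % 2 ^ i = c % 2 ^ i ∧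
          PowerSeries.coeff n (((A * (1 + Polynomial.X ^ s) : Polynomial (ZMod 2)) :
      PowerSeries (ZMod 2)) * PowerSeries.mk fun k => (Fintype.card (Nat.Partition k) : ZMod 2)) = 1).card
      ≤ 2 * (W X).card + (n₀ + s) := by
    intro X
    have hsub : ((range (X + 1)).filter fun n => n % 2 ^ i = c % 2 ^ i ∧
          PowerSeries.coeff n (((A * (1 + Polynomial.X ^ s) : Polynomial (ZMod 2)) :
      PowerSeries (ZMod 2)) * PowerSeries.mk fun k => (Fintype.card (Nat.Partition k) : ZMod 2)) = 1)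
      ⊆ (W X ∪ (W X).image (fun n => n + s)) ∪ range (n₀ + s) := by
      intro n hn
      rw [Finset.mem_filter, Finset.mem_range, hcoef] at hn
      obtain ⟨hnX, hnc, hn1⟩ := hn
      rw [Finset.mem_union, Finset.mem_union, Finset.mem_range, Finset.mem_image]
      rcases Nat.lt_or_ge n (n₀ + s) with h | h
      · right; exact h
      · left
        by_cases h2 : a n = r n
        · right
          refine ⟨n - s, ?_, by omega⟩
          rw [hW]
          simp only [Finset.mem_filter, Finset.mem_range]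
          refine ⟨by omega, ?_, ?_⟩
          · rw [← hnc]
            have : n = (n - s) + 2 ^ i * t := by omega
            conv_rhs => rw [this]
            rw [Nat.add_mul_mod_self_left]
          · intro h3
            rw [if_pos (by omega), h2, h3] at hn1
            have h4 := hrs (n - s) (by omega)
            rw [Nat.sub_add_cancel (by omega)] at h4
            rw [h4, CharTwo.add_self_eq_zero] at hn1
            exact zero_ne_one hn1
        · left
          rw [hW]
          simp only [Finset.mem_filter, Finset.mem_range]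
          exact ⟨hnX, hnc, h2⟩
    refine (Finset.card_le_card hsub).trans ?_
    refine (Finset.card_union_le _ _).trans ?_
    rw [Finset.card_range]
    have h5 := Finset.card_union_le (W X) ((W X).image (fun n => n + s))
    have h6 : ((W X).image (fun n => n + s)).card ≤ (W X).card := Finset.card_image_le
    omega
  obtain ⟨X₂, h2⟩ := FIN_grow ((n₀ + s : ℕ) * 2 / κ)
  refine ⟨κ / 4, by positivity, max X₁ X₂, fun X hX => ?_⟩
  have h3 := h1 X (le_of_max_le_left hX)
  have h4 := h2 X (le_of_max_le_right hX)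
  have h5 : (((range (X + 1)).filter fun n => n % 2 ^ i = c % 2 ^ i ∧
          PowerSeries.coeff n (((A * (1 + Polynomial.X ^ s) : Polynomial (ZMod 2)) :
      PowerSeries (ZMod 2)) * PowerSeries.mk fun k => (Fintype.card (Nat.Partition k) : ZMod 2)) = 1).card : ℝ)
      ≤ 2 * (W X).card + ((n₀ + s : ℕ) : ℝ) := by exact_mod_cast hbound X
  set F : ℝ := √X * Real.log X / (Real.log (Real.log X)) ^ 3 with hF
  have h6 : κ * √X * Real.log X / (Real.log (Real.log X)) ^ 3 = κ * F := by rw [hF]; ring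
  have h7 : κ / 4 * √X * Real.log X / (Real.log (Real.log X)) ^ 3 = κ / 4 * F := by rw [hF]; ring
  rw [h6] at h3
  rw [h7]
  have h8 : ((n₀ + s : ℕ) : ℝ) * 2 ≤ F * κ := by rw [← div_le_iff₀ hκ]; exact h4
  have h9 : κ / 4 * F ≤ ((W X).card : ℝ) := by linarith
  exact h9

end Pool.Agent.helper7.JT

namespace Pool.Agent.helper7.JT

open Finset

/-- the target form of the final theorem -/
theorem joint_parity_of (hJC : FIN_JC) (A : Polynomial (ZMod 2)) (hA : A ≠ 0) (r : ℕ → ZMod 2)
    (t N₀ i c : ℕ) (ht : 1 ≤ t) (hr : ∀ n ≥ N₀, r (n + t) = r n) :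
    ∃ κ : ℝ, 0 < κ ∧ ∀ᶠ X : ℕ in Filter.atTop,
      κ * √X * Real.log X / (Real.log (Real.log X)) ^ 3 ≤
        (((range (X + 1)).filter fun n => n ≡ c [MOD 2 ^ i] ∧
          (∑ h ∈ A.support.filter (fun h => h ≤ n), (Fintype.card (Nat.Partition (n - h)) : ZMod 2))
            ≠ r n).card : ℝ) := by
  obtain ⟨κ, hκ, X₀, h⟩ := joint_final_of hJC A hA r ⟨t, N₀, ht, hr⟩ i c
  refine ⟨κ, hκ, Filter.eventually_atTop.2 ⟨X₀, fun X hX => (h X hX).trans (le_of_eq ?_)⟩⟩
  congr 2
  ext n
  simp only [Finset.mem_filter, FIN_coeff, Finset.sum_filter, Nat.ModEq]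

end Pool.Agent.helper7.JT
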